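import Pool.Agent.Q235.FD.Series

/-!
# The L-functions of `H ^ (2 j)`, all `j`, in the half plane `Re s > j + 1 / 2` for all products of the curves of almost all systems of
hyperelliptic curves whose coefficients arise from arbitrary integers by changing a few digits

`k = ℚ`, so `dim_a(k) = 1`. Let `C₁, ..., C_n` be hyperelliptic curves `Y ^ 2 = X ^ (2 g_a + 1) + ... + m (a, 0)` whose coefficients arise
from arbitrary integers by changing a few digits at random positions, and let `X = C_{i 1} × ... × C_{i r}` be a product of `r` of them,
where `C_a` occurs at most `2 g_a + 1` times. For generic coefficients the Galois-invariant classes in `H ^ (2 j)(X)(j)` are those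
invariant under the product of the groups `Sp (2 g_a)`; they are algebraic (products of classes of points and of graphs), and their
number is the combinatorial number `ρ_j = invariants j i`: the sum over the Künneth components of the products of the numbers of perfect
matchings of the equal factors. So the conjecture says that `L(s) / ζ(s - j) ^ (ρ_j)` has neither a pole nor a zero at `s = j + 1`. Up to
a Dirichlet series which converges absolutely for `Re s > j + 1 / 2` the logarithmic derivative of this quotient is
`- ∑ (b_p - ρ_j p ^ j) log p p ^ (-s)`, where `b_p` is the trace of Frobenius on `H ^ (2 j)`. We show for almost all choices of the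
positions that the sum of `w_p (b_p - ρ_j p ^ j) log p p ^ (-s)` over the good primes `p` with `y < p ≤ x` is at most
`3 ^ r (1 + j + |s|) y ^ (-δ / 4)`, for all complex `s` with `Re s ≥ j + 1 / 2 + δ`, all `j`, all such products `X`, all `w` in an
arbitrary family of `y ^ B` weight functions with values in `[-1, 1]` (twists) and all `x` from `y` to `exp (c d)`, where `d` is the
number of the digits changed.

The proof uses the law for functions of the residues of such tuples (library `TH894.NE`), Weil's bound (library `H341R2`), the
moments of the traces over the polynomials modulo `p`, and partial summation.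
-/

set_option autoImplicit false

namespace Pool.Agent.Results.MP_223b32_ag.FewDigitProducts

open Finset Pool.Agent.Q235.FD

/-- For all systems of `n ≥ 1` genera `g_a`, numbers `r` of factors, bases `b ≥ 2`, `δ > 0`, `A` and `B`, for almost all systems
`m` of coefficient vectors obtained by changing a few digits of arbitrary integers (`ForAlmostAllFrom`), uniformly in the family `θ` of
at most `y ^ B` weight functions: `|prodSeries j y x m i w s| ≤ 3 ^ r (1 + j + |s|) y ^ (-δ / 4)` for all `i : Fin r → Fin n` which
take every value `a` at most `2 g_a + 1` times, all `j` and all `s` with `Re s ≥ j + 1 / 2 + δ`. -/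
theorem result (n : ℕ) (hn : 1 ≤ n) (g : Fin n → ℕ) (r b : ℕ) (hb : 2 ≤ b) (δ : ℝ) (hδ : 0 < δ) (A B : ℕ) :
    ForAlmostAllFrom (Σ a, Fin (2 * g a + 1)) b A (fun (θ : Weights B) y x m => ∀ w ∈ θ.W y, ∀ i : Fin r → Fin n,
      (∀ a, (univ.filter (fun k => i k = a)).card ≤ 2 * g a + 1) → ∀ j : ℕ, ∀ s : ℂ, j + 1 / 2 + δ ≤ s.re →
      ‖prodSeries j y x m i w s‖ ≤ 3 ^ r * (1 + j + ‖s‖) * (y : ℝ) ^ (-(δ / 4))) :=
  prod_series (D := fun a => 2 * g a + 1) hn (fun a => ⟨g a, rfl⟩) r hb hδ A B

end Pool.Agent.Results.MP_223b32_ag.FewDigitProducts
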