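import Pool.Agent.Q190.NP.Ser

/-!
# The L-functions of `H ^ (2 j)`, all `j`, in the half plane `Re s > j + 1 / 2`, for all products of the curves of ALL systems of
hyperelliptic curves whose coefficients lie in windows near powers with non-integral exponents

`k = ℚ`, so `dim_a(k) = 1`. Let `C₁, ..., C_n` be hyperelliptic curves `Y ^ 2 = X ^ (2 g_a + 1) + ... + m (a, 0)` whose coefficients are
ARBITRARY integers in the windows of length `y ^ V` around the real numbers `β l + ω l * i (μ l) ^ ex l`, where `i` runs through
`{1, ..., x} ^ dm`, the exponents `ex l > 1` are not integers, and two coordinates which depend on the same index have different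
exponents; let `X = C_{i 1} × ... × C_{i r}` be a product of `r` of them, where `C_a` occurs at most `2 g_a + 1` times. For generic
coefficients the Galois-invariant classes in `H ^ (2 j)(X)(j)` are those invariant under the product of the groups `Sp (2 g_a)`; they
are algebraic, and their number is the combinatorial number `ρ_j = invariants j i`. So the conjecture says that
`L(s) / ζ(s - j) ^ (ρ_j)` has neither a pole nor a zero at `s = j + 1`. Up to a Dirichlet series which converges absolutely for
`Re s > j + 1 / 2` the logarithmic derivative of this quotient is `- ∑ (b_p - ρ_j p ^ j) log p p ^ (-s)`, where `b_p` is the trace of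
Frobenius on `H ^ (2 j)`. We show for almost all index vectors and ALL coefficients in the windows that the sum of
`w_p (b_p - ρ_j p ^ j) log p p ^ (-s)` over the primes `p` with `y < p ≤ z` where all the curves are good is at most
`3 ^ r (1 + j + |s|) y ^ (-δ / 4)`, for all complex `s` with `Re s ≥ j + 1 / 2 + δ`, all `j`, all such products `X`, all `w` in an
arbitrary family of `y ^ B` weight functions with values in `[-1, 1]` and all `z` from `y` to `x ^ c`.
-/

set_option autoImplicit false

namespace Pool.Agent.Results.MP_223b32_ag.NearPowers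

open Finset Pool.Agent.Q56.WL
open Pool.Agent.Q235.FD (Weights prodSeries)

/-- For all systems of `n ≥ 1` genera `g_a`, numbers `r` of factors, exponents, coefficients and maps as in `Setting`, `δ > 0`, `A`,
`V` and `B`, for almost all index vectors and ALL systems `m` of coefficient vectors in the windows (`ForAlmostAllFrom`), uniformly in
the shifts and in the family `θ` of at most `y ^ B` weight functions: `|prodSeries j y x m i w s| ≤ 3 ^ r (1 + j + |s|) y ^ (-δ / 4)` for
all `i : Fin r → Fin n` which take every value `a` at most `2 g_a + 1` times, all `j` and all `s` with `Re s ≥ j + 1 / 2 + δ`. -/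
theorem result (n : ℕ) (hn : 1 ≤ n) (g : Fin n → ℕ) (r dm : ℕ) (ex ω : (Σ a, Fin (2 * g a + 1)) → ℝ)
    (μ : (Σ a, Fin (2 * g a + 1)) → Fin dm) (hset : Setting ex ω μ) (δ : ℝ) (hδ : 0 < δ) (A V B : ℕ) :
    ForAlmostAllFrom ex ω μ A V (fun (θ : Weights B) y x m => ∀ w ∈ θ.W y, ∀ i : Fin r → Fin n,
      (∀ a, (univ.filter (fun k => i k = a)).card ≤ 2 * g a + 1) → ∀ j : ℕ, ∀ s : ℂ, j + 1 / 2 + δ ≤ s.re →
      ‖prodSeries j y x m i w s‖ ≤ 3 ^ r * (1 + j + ‖s‖) * (y : ℝ) ^ (-(δ / 4))) :=
  Pool.Agent.Q190.NP.prod_series_near (D := fun a => 2 * g a + 1) hn (fun a => ⟨g a, rfl⟩) r hset hδ A V B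

end Pool.Agent.Results.MP_223b32_ag.NearPowers
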