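import Pool.Agent.Q11.PB.SqrDk

/-!
# The pole of the L-function of `H²(C × C)` for the curves `Y ^ 2 = D_n(X, a) + w`

`V` is the variety of the points `(x, y)` with `y_i ^ 2 = G_i(x)`, over the number field `K`, for
polynomials `G_i` in `k` variables such that no product of some of them is a constant times a square.
`C` is the curve `Y ^ 2 = D_n(X, a(x)) + w` of genus `m` over the finitely generated field
`E(V × 𝔸¹) = E(V)(w)`, for any number field `E ⊇ K`, where `D_n`, `n = 2 m + 1`, is the Dickson polynomial
with the parameter `a`, a nonzero polynomial function on the base: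
`D_n(u + a / u, a) = u ^ n + (a / u) ^ n`.  For `n = 3` this is the elliptic curve
`Y ^ 2 = X ^ 3 - 3 a X + w`, and for every `n` the Jacobian of `C` has real multiplication by the real
subfield of the cyclotomic field, over an extension of `K`.

`𝒴` is the open part of the model of `V × 𝔸¹` over the ring of integers of `E` which consists of the
points `(x, y, w)` with `2 y_i ≠ 0` and smooth fibre, without the primes over a finite set `R`; its
function field is `E(V)(w)`, and its dimension is `k + 2`.  The definitions are in
`Pool.Agent.Q11.PB.Sqr`, `Pool.Agent.Q11.PB.SqrDk`, `Pool.Agent.Q11.PB.Hyp`, `Pool.Agent.Y707.DP.Defs`,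
`Pool.Agent.Y707.PC.Fin`, `Pool.Agent.Y707.PH.Defs` and `Pool.Agent.W353.FB.Defs`.
-/

set_option autoImplicit false
set_option maxHeartbeats 400000

namespace Pool.Agent.Results.MP_223b32_ag.SquaresOfDicksonCurves

open Polynomial NumberField IsDedekindDomain Pool.Agent.Y707.DP Pool.Agent.Q11.PB
open Pool.Agent.Y707.PC (IsFunctionField IsSmoothCurve exists_field)

/-- **The pole of the L-function of `H²(C × C)`.**  The Euler product over the closed points of `𝒴`
converges absolutely for `Re s > k + 3`, it has a meromorphic continuation to a neighbourhood of
`s = k + 3 = 1 + dim 𝒴`, and it has a pole of order `endRank m E + 2` there, which is the rank of the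
group of the divisor classes of `C × C` over `E(V)(w)`, for all number fields `E ⊇ K`. -/
theorem result (K : Type) [Field K] [NumberField K] (k l m : ℕ)
    (G : Fin l → MvPolynomial (Fin k) (𝓞 K)) (a : MvPolynomial (Fin k) (𝓞 K))
    (h : IsDickson m G a) (E : IntermediateField K (AlgebraicClosure K)) [NumberField E] :
    -- the analytic side: the pole at `k + 3`
    (∀ R : Finset (HeightOneSpectrum (𝓞 K)),
      HasSquarePole (dicksonFamily m G a) R E (endRank m E + 2)) ∧
    -- the algebraic side: the Néron-Severi rank over `M(w)`, for the function field `M` of `V` over `E`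
    (∀ (M : Type) [Field M] [Algebra E M] (ξ : Fin k → M) (η : Fin l → M),
      IsFunctionField G E ξ η → IsSmoothCurve m (genericCurve m a E ξ) ∧
        SquarePicard (genericCurve m a E ξ) (endRank m E)) ∧
    -- the function field exists
    (∃ (M : Type) (_ : Field M) (_ : Algebra E M) (ξ : Fin k → M) (η : Fin l → M),
      IsFunctionField G E ξ η) :=
  ⟨fun R => dickson_square_pole h R E, fun _ _ _ _ _ hM => product_algebraic h E hM,
    exists_field G E⟩

end Pool.Agent.Results.MP_223b32_ag.SquaresOfDicksonCurves
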