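import Pool.Agent.Q11.PB.Surf

/-!
# The pole of the L-function of `H²` for linear pencils of surfaces with a hyperelliptic fibration

`V` is the variety of the points `(x, y)` with `y_i ^ 2 = G_i(x)`, over the number field `K`, for
polynomials `G_i` in `k` variables such that no product of some of them is a constant times a square.
`X` is the smooth projective surface `Y ^ 2 = a(x, t, X) + w ∏ (X - α_j(x, t))` over the finitely
generated field `E(V × 𝔸¹) = E(V)(w)`, for any number field `E ⊇ K`: a double cover of the Hirzebruch
surface `F_{2n}`, fibred over the projective `t`-line in curves of genus `g`.  For `g = 1` these are all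
kinds of Weierstrass elliptic surfaces, rational for `n = 1`, K3 for `n = 2`, and of geometric genus
`n - 1` in general.  Here `a` is monic of degree `2 g + 1` in `X` and there are at most `2 g` sections
`X = α_j(x, t)`.

`𝒴` is the open part of the model of `V × 𝔸¹` over the ring of integers of `E` which consists of the
points `(x, y, w)` with `2 y_i D(x, w) ≠ 0`, without the primes over a finite set `R`, for any `D` as in
`IsDiscriminant`; its function field is `E(V)(w)`, its dimension is `k + 2`, and the surfaces over its
points are smooth.  The definitions are in `Pool.Agent.Q11.PB.Surf`, `Pool.Agent.Q11.PB.Tau`,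
`Pool.Agent.Q11.PB.Quad`, `Pool.Agent.Y707.SF.Defs`, `Pool.Agent.Y707.SF.Dt`, `Pool.Agent.Y707.PC.Fin`,
`Pool.Agent.Y707.PC.Pen`, `Pool.Agent.Y707.PC.Csq`, `Pool.Agent.Y707.PH.Defs` and
`Pool.Agent.W353.FB.Defs`.
-/

set_option autoImplicit false
set_option maxHeartbeats 400000

namespace Pool.Agent.Results.MP_223b32_ag.SurfacePencils

open Polynomial NumberField IsDedekindDomain Pool.Agent.Y707.SF Pool.Agent.Q11.PB
open Pool.Agent.Y707.PC (IsFunctionField exists_field)

/-- **The pole of the L-function of `H²`.**  The Euler product over the closed points of `𝒴` of the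
L-function of `H²(X)` converges absolutely for `Re s > k + 7 / 2`, it has a meromorphic continuation to
all real `s ≥ k + 3 = 1 + dim 𝒴`, and it has a pole of order `m + 2` at `s = k + 3`, which is the rank of
the Néron-Severi group of `X` over `E(V)(w)`, where `m` is the number of the `j` for which
`a(t, α_j(t))` is a square in `E(V)(t)`, for all number fields `E ⊇ K`. -/
theorem result (K : Type) [Field K] [NumberField K] (k l r g n : ℕ)
    (G : Fin l → MvPolynomial (Fin k) (𝓞 K)) (a : (MvPolynomial (Fin k) (𝓞 K))[X][X])
    (α : Fin r → (MvPolynomial (Fin k) (𝓞 K))[X]) (h : IsSurfacePencil g n G a α)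
    (E : IntermediateField K (AlgebraicClosure K)) [NumberField E] :
    -- the analytic side: the surfaces over `𝒴` are smooth, and the pole at `k + 3`
    (∀ D : (MvPolynomial (Fin k) (𝓞 K))[X], IsDiscriminant g n a α D →
      (∀ (κ : Type) [Field κ] (φ : 𝓞 K →+* κ) (t : Fin (k + l + 1) → κ),
        t ∈ (surfaceBase G D).points φ →
          IsSmoothSurface g n (surfaceAt (l := l) a α (MvPolynomial.eval₂Hom φ t))) ∧
      ∀ R : Finset (HeightOneSpectrum (𝓞 K)), HasPole (surfaceBase G D) R E
        (surfaceTrace g n G a α D) (3 / 2) 1 (classes G a α E + 2)) ∧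
    -- such `D` exist
    (∃ D : (MvPolynomial (Fin k) (𝓞 K))[X], IsDiscriminant g n a α D) ∧
    -- the algebraic side: the Néron-Severi rank over `M(w)`, for the function field `M` of `V` over `E`
    (∀ (M : Type) [Field M] [Algebra E M] (ξ : Fin k → M) (η : Fin l → M),
      IsFunctionField G E ξ η → IsSmoothSurface g n (genericSurface a α E ξ) ∧
        PicardRankAddTwo (genericSurface a α E ξ) (classes G a α E)) ∧
    -- the function field exists
    (∃ (M : Type) (_ : Field M) (_ : Algebra E M) (ξ : Fin k → M) (η : Fin l → M),
      IsFunctionField G E ξ η) :=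
  ⟨fun _ hD => ⟨fun _ _ φ t ht => smooth_point h hD φ t ht,
    fun R => surface_pole h hD.nonzero hD.finite hD.infinite R E⟩, exists_discriminant h,
    fun _ _ _ _ _ hM => surface_algebraic h E hM, exists_field G E⟩

end Pool.Agent.Results.MP_223b32_ag.SurfacePencils
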